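import Pool.Agent.W_448s14_h94.SgM
import Pool.Agent.W_448s8f_h76.FjA
import Pool.Agent.W_448mp_h83.MpA
import Pool.Agent.W_448s6_h67.PcC

/-!
The near patterns of `La7` at `j = 14` (MP_448cb3_co, step B): the matching polynomial at a cut
vertex, the numbers of lower covers
-/

namespace Pool.Agent.GaussPoset.Np

set_option linter.unusedSectionVars false

open Finset Polynomial Win

universe u

section mat

variable {α : Type*} [DecidableEq α]

/-- the matching polynomial at a cut vertex -/
theorem mp_cut (A : Finset α → ℤ) {V B : Finset α} {a : α} (haV : a ∉ V) (haB : a ∉ B)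
    (hVB : Disjoint V B) (h : ∀ u ∈ V, ∀ w ∈ B, A {u, w} = 0) :
    St.mp A (insert a (V ∪ B)) = St.mp A (insert a V) * St.mp A B +
      St.mp A V * ∑ u ∈ B, C (A {a, u}) * X * St.mp A (B.erase u) := by
  have ha : a ∉ V ∪ B := by
    rw [mem_union]
    exact fun h => h.elim haV haB
  rw [St.mp_insert A ha, St.mp_insert A haV, St.mp_union hVB h, sum_union hVB]
  have e1 : ∀ u ∈ V, C (A {a, u}) * X * St.mp A ((V ∪ B).erase u) =
      C (A {a, u}) * X * St.mp A (V.erase u) * St.mp A B := by
    intro u hu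
    have huB : u ∉ B := disjoint_left.1 hVB hu
    rw [erase_union_distrib, erase_eq_of_notMem huB,
      St.mp_union (disjoint_of_subset_left (erase_subset _ _) hVB)
        (fun x hx w hw => h x (mem_of_mem_erase hx) w hw)]
    ring
  have e2 : ∀ u ∈ B, C (A {a, u}) * X * St.mp A ((V ∪ B).erase u) =
      St.mp A V * (C (A {a, u}) * X * St.mp A (B.erase u)) := by
    intro u hu
    have huV : u ∉ V := fun h1 => disjoint_left.1 hVB h1 hu
    rw [erase_union_distrib, erase_eq_of_notMem huV,
      St.mp_union (disjoint_of_subset_right (erase_subset _ _) hVB)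
        (fun x hx w hw => h x hx w (mem_of_mem_erase hw))]
    ring
  rw [sum_congr rfl e1, sum_congr rfl e2, ← sum_mul, ← mul_sum]
  ring

/-- a vertex with one neighbour -/
lemma mp_head (A : Finset α → ℤ) {W : Finset α} {a b : α} (hab : a ≠ b) (haW : a ∉ W)
    (hbW : b ∉ W) (h : ∀ u ∈ W, A {a, u} = 0) :
    St.mp A (insert a (insert b W)) = St.mp A (insert b W) + C (A {a, b}) * X * St.mp A W := by
  have ha : a ∉ insert b W := by
    rw [mem_insert]
    exact fun h => h.elim hab haW
  rw [St.mp_insert A ha, sum_insert hbW, erase_insert hbW, sum_eq_zero, add_zero]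
  intro u hu
  rw [h u hu]
  simp

/-- the value at `1` for a path with five vertices -/
lemma ev_path {A : Finset α → ℤ} {y : ℕ → α} (hinj : ∀ a < 5, ∀ b < 5, y a = y b → a = b)
    (h0 : ∀ a b, a + 2 ≤ b → b < 5 → A {y a, y b} = 0) {c : ℕ → ℤ}
    (hc : ∀ a, a < 4 → A {y a, y (a + 1)} = c a) :
    (St.mp A {y 1, y 2, y 3, y 4}).eval 1 = 1 + c 1 + c 2 + c 3 + c 1 * c 3 ∧
    (St.mp A {y 0, y 1, y 2, y 3, y 4}).eval 1 =
      1 + c 0 + c 1 + c 2 + c 3 + c 0 * c 2 + c 0 * c 3 + c 1 * c 3 := by
  have hne : ∀ a b, a < b → b < 5 → y a ≠ y b := fun a b h1 h2 h3 => by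
    have := hinj a (by omega) b h2 h3
    omega
  have p4 : St.mp A {y 4} = 1 := St.mp_singleton
  have p34 : St.mp A {y 3, y 4} = 1 + C (c 3) * X := by
    have h1 := mp_head A (a := y 3) (b := y 4) (W := ∅) (hne 3 4 (by omega) (by omega)) (by simp)
      (by simp) (by simp)
    rw [St.mp_empty, mul_one, show (insert (y 4) ∅ : Finset α) = {y 4} from rfl, p4,
      hc 3 (by omega)] at h1
    exact h1
  have p234 : St.mp A {y 2, y 3, y 4} = St.mp A {y 3, y 4} + C (c 2) * X * St.mp A {y 4} := by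
    rw [← hc 2 (by omega)]
    refine mp_head A (hne 2 3 (by omega) (by omega)) ?_ ?_ ?_
    · simp [hne 2 4]
    · simp [hne 3 4]
    · intro u hu
      rw [mem_singleton.1 hu]
      exact h0 2 4 (by omega) (by omega)
  have p1234 : St.mp A {y 1, y 2, y 3, y 4} = St.mp A {y 2, y 3, y 4} +
      C (c 1) * X * St.mp A {y 3, y 4} := by
    rw [← hc 1 (by omega)]
    refine mp_head A (hne 1 2 (by omega) (by omega)) ?_ ?_ ?_
    · simp [hne 1 3, hne 1 4]
    · simp [hne 2 3, hne 2 4]
    · intro u hu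
      rw [mem_insert, mem_singleton] at hu
      rcases hu with rfl | rfl
      · exact h0 1 3 (by omega) (by omega)
      · exact h0 1 4 (by omega) (by omega)
  have p01234 : St.mp A {y 0, y 1, y 2, y 3, y 4} = St.mp A {y 1, y 2, y 3, y 4} +
      C (c 0) * X * St.mp A {y 2, y 3, y 4} := by
    rw [← hc 0 (by omega)]
    refine mp_head A (hne 0 1 (by omega) (by omega)) ?_ ?_ ?_
    · simp [hne 0 2, hne 0 3, hne 0 4]
    · simp [hne 1 2, hne 1 3, hne 1 4]
    · intro u hu
      rw [mem_insert, mem_insert, mem_singleton] at hu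
      rcases hu with rfl | rfl | rfl
      · exact h0 0 2 (by omega) (by omega)
      · exact h0 0 3 (by omega) (by omega)
      · exact h0 0 4 (by omega) (by omega)
  constructor
  · rw [p1234, p234, p34, p4]
    simp only [eval_add, eval_mul, eval_C, eval_X, eval_one, mul_one]
    ring
  · rw [p01234, p1234, p234, p34, p4]
    simp only [eval_add, eval_mul, eval_C, eval_X, eval_one, mul_one]
    ring

end mat

variable {P : Type u} [Fintype P] [PartialOrder P] [DecidableEq P] {r i : ℕ}

/-- the lower covers of an element: pendants and common lower covers -/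
theorem dc_sum (H : Gr P r) {v : P} (hv : lev v = i) :
    ∑ w ∈ (lv P i).erase v, dcv v w + (pen v).card = (dc v).card := by
  classical
  have h1 : ∀ w, dcv v w = ∑ z ∈ dc v, if z ⋖ w then 1 else 0 := by
    intro w
    unfold dcv
    rw [← Finset.card_filter]
    congr 1
    ext z
    simp only [mem_filter, mem_univ, true_and, mem_dc]
  have h2 : (pen v).card = ∑ z ∈ dc v, if (uc z).card = 1 then 1 else 0 := by
    rw [← Finset.card_filter]
    congr 1
    ext z
    rw [mem_pen, mem_filter, mem_dc]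
  have h3 : ∑ w ∈ (lv P i).erase v, dcv v w =
      ∑ z ∈ dc v, ∑ w ∈ (lv P i).erase v, if z ⋖ w then 1 else 0 := by
    rw [Finset.sum_congr rfl fun w _ => h1 w, Finset.sum_comm]
  rw [h3, h2, ← Finset.sum_add_distrib, Finset.card_eq_sum_ones]
  refine Finset.sum_congr rfl fun z hz => ?_
  rw [mem_dc] at hz
  have hlz := lev_cov H hz
  rw [← Finset.card_filter]
  have e1 : ((lv P i).erase v).filter (fun w => z ⋖ w) = (uc z).erase v := by
    ext w
    rw [mem_filter, mem_erase, mem_erase, mem_lv, mem_uc]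
    constructor
    · rintro ⟨⟨g1, g2⟩, g3⟩
      exact ⟨g1, g3⟩
    · rintro ⟨g1, g2⟩
      have := lev_cov H g2
      exact ⟨⟨g1, by omega⟩, g2⟩
  rw [e1, card_erase_of_mem (mem_uc.2 hz)]
  rcases uc_card_cases H (x := z) (by omega) with h4 | h4
  · rw [h4, if_pos rfl]
  · rw [h4, if_neg (by norm_num)]

/-- all the common lower covers of `v` are counted on a set -/
theorem dc_sum_on (H : Gr P r) {v : P} (hv : lev v = i) {I : Finset P}
    (hI : ∀ w ∈ I, lev w = i ∧ w ≠ v) (h0 : ∀ w, lev w = i → w ≠ v → w ∉ I → dcv v w = 0) :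
    ∑ w ∈ I, dcv v w + (pen v).card = (dc v).card := by
  rw [← dc_sum H hv]
  congr 1
  refine Finset.sum_subset ?_ ?_
  · intro w hw
    obtain ⟨h1, h2⟩ := hI w hw
    exact mem_erase.2 ⟨h2, mem_lv.2 h1⟩
  · intro w hw hn
    rw [mem_erase, mem_lv] at hw
    exact h0 w hw.2 hw.1 hn

/-- at most two lower covers -/
theorem dc_sum_le (H : Gr P r) {v : P} (hv : lev v = i) {I : Finset P}
    (hI : ∀ w ∈ I, lev w = i ∧ w ≠ v) : ∑ w ∈ I, dcv v w + (pen v).card ≤ 2 := by
  have h1 := dc_sum H hv
  have h2 := dc_card_le H v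
  have h3 : ∑ w ∈ I, dcv v w ≤ ∑ w ∈ (lv P i).erase v, dcv v w := by
    refine Finset.sum_le_sum_of_subset ?_
    intro w hw
    obtain ⟨h1, h2⟩ := hI w hw
    exact mem_erase.2 ⟨h2, mem_lv.2 h1⟩
  omega

end Pool.Agent.GaussPoset.Np
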