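import Pool.Agent.W_448jb_h67.NpA
import Pool.Agent.W_448s7s_h5.TvF

/-!
The near patterns of `La7` at `j = 14` (MP_448cb3_co, step B): if every join of level 15 is a join
of a fold end and an end `(5, 25, 0)`, then such a join is below the first element of level 14 of
every component `La7`, and there are three patterns of the common lower covers of the others.
-/

namespace Pool.Agent.GaussPoset.Np

set_option linter.unusedSectionVars false

open Finset Polynomial Win Wd Cl

universe u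

variable {P : Type u} [Fintype P] [PartialOrder P] [DecidableEq P] {r : ℕ}
  {lo hi : Tops P → ℕ → ℕ} {e : Tops P → ℕ → ℕ → P}

/-- the bounds of the last levels -/
lemma la7_bd {t : P} {l h : ℕ → ℕ} {f : ℕ → ℕ → P} (D : WordD 14 7 wa7 l h)
    (C : Cp.Comp 14 t l h f) : (l 14 = 3 ∧ h 14 = 7) ∧ (l 13 = 3 ∧ h 13 = 6) ∧
      (l 12 = 3 ∧ h 12 = 5) ∧ (l 11 = 2 ∧ h 11 = 4) ∧ ∀ k, k < 7 → l k = 0 ∧ h k = 0 := by
  obtain ⟨h1, h2⟩ := D.rows C
  refine ⟨⟨?_, ?_⟩, ⟨?_, ?_⟩, ⟨?_, ?_⟩, ⟨?_, ?_⟩, D.trunk⟩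
  · exact (h1 14 le_rfl).trans (by decide +kernel)
  · exact (h2 14 le_rfl).trans (by decide +kernel)
  · exact (h1 13 (by omega)).trans (by decide +kernel)
  · exact (h2 13 (by omega)).trans (by decide +kernel)
  · exact (h1 12 (by omega)).trans (by decide +kernel)
  · exact (h2 12 (by omega)).trans (by decide +kernel)
  · exact (h1 11 (by omega)).trans (by decide +kernel)
  · exact (h2 11 (by omega)).trans (by decide +kernel)

/-- the covers of an element which is not a join -/
lemma le_of_not_jn {z w t : P} (ht : lev t = 0) (hz : ¬ Hul.Jn z) (hzt : z ≤ t) (hzw : z ⋖ w) :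
    w ≤ t := by
  obtain ⟨s, hs, hs2⟩ := exists_above' (x := w) (j := 0) (Nat.zero_le _)
  by_contra hcon
  exact hz ⟨t, s, ht, hs2, fun h => hcon (h ▸ hs), hzt, hzw.le.trans hs⟩

/-- the last element of level 14 of `La7` -/
lemma la7_last (K : Sm.Ctx P r 14 lo hi e) {t : Tops P} (D : WordD 14 7 wa7 (lo t) (hi t))
    (ho : e t 14 7 ∈ onlyB t) (hl : lev (e t 14 7) = 14) : mX 14 (e t 14 7) = 1 := by
  obtain ⟨N, θ, B, -, -, h1, h2⟩ := Sg.t7_la K.gt (K.comp t) D
  have e29 : Sg.ce (e t) 29 = e t 14 7 := by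
    unfold Sg.ce
    rfl
  rw [e29] at h1 h2
  have h3 : ∀ k, k < 7 → nab k (e t 14 7) = 1 := fun k hk => by
    obtain ⟨a, b⟩ := D.trunk k hk
    exact nab_one_of_eq (K.comp t) ho (by omega) (by omega) (by rw [a, b])
  unfold mX
  simp only [Finset.sum_range_succ, Finset.sum_range_zero]
  rw [h3 0 (by omega), h3 1 (by omega), h3 2 (by omega), h3 3 (by omega), h3 4 (by omega),
    h3 5 (by omega), h3 6 (by omega), h2, h1 8 (by omega) (by omega),
    h1 9 (by omega) (by omega), h1 10 (by omega) (by omega), h1 11 (by omega) (by omega),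
    h1 12 (by omega) (by omega), h1 13 (by omega) (by omega)]
  norm_num

/-- a join in a component `La7` -/
theorem join_y0 (K : Sm.Ctx P r 14 lo hi e) (hJ : Tv.JFB P) {t : Tops P}
    (D : WordD 14 7 wa7 (lo t) (hi t)) {z y : P} (hz : lev z = 15) (hj : Hul.Jn z) (hzy : z ⋖ y)
    (hyt : y ≤ (t : P)) : y = e t 14 3 ∧ ∃ x, W4.FJn 14 z x y ∧ Sm.Dt 14 y (5, 25, 0) := by
  obtain ⟨x, x', F, hd⟩ := hJ z hz hj
  have H := K.gt.H
  have C := K.comp t
  obtain ⟨b14, b13, -, -, btr⟩ := la7_bd D C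
  obtain ⟨u1, u2⟩ := K.ends F.1 F.2.1
  have hly : lev y = 14 := by
    have := lev_cov H hzy
    omega
  have hxx : x ≠ x' := by
    rintro rfl
    exact F.1.ne rfl
  have hy : y = x ∨ y = x' := by
    have h1 : y ∈ uc z := mem_uc.2 hzy
    rw [StB_uc_pair H F.1.cov F.1.cov' hxx, mem_insert, mem_singleton] at h1
    exact h1
  have hyx : y = x' := by
    rcases hy with hy | hy
    · exfalso
      have ho := F.1.only
      rw [← hy] at ho
      have ht : t = topOf y := Subtype.ext (mem_onlyB.mp ho t t.2 hyt)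
      rw [← ht] at ho
      have h1 := nab_one_of_eq C (x := y) ho (k := 2) (by omega) (by omega)
        (by rw [(btr 2 (by omega)).1, (btr 2 (by omega)).2])
      have h2 := F.2.2.2.2 2 (by omega)
      rw [← hy] at h2
      omega
    · exact hy
  subst hyx
  refine ⟨?_, x, F, hd⟩
  have ho := F.1.only'
  have ht : t = topOf y := Subtype.ext (mem_onlyB.mp ho t t.2 hyt)
  rw [← ht] at ho
  obtain ⟨s, s1, s2, s3⟩ := C.surj y hyt (by omega)
  rw [hly] at s1 s2 s3
  have h2 := C.toWin.uc_two K.gt t.2 (k := 13) (a := s) (by omega) s1 s2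
  rw [show 13 + 1 = 14 from rfl, s3, u2] at h2
  have h3 : s = 3 ∨ s = 7 := by
    by_contra hcon
    have := h2.2 (by omega)
    omega
  rcases h3 with rfl | rfl
  · exact s3.symm
  · exfalso
    have h4 := la7_last K D (by rw [s3]; exact ho) (by rw [s3]; exact hly)
    rw [s3] at h4
    have h5 := hd.1
    rw [h4] at h5
    norm_num at h5

end Pool.Agent.GaussPoset.Np
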