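import Pool.Agent.W_448jb_h67.NpB

/-!
The near patterns of `La7` at `j = 14` (MP_448cb3_co, step B): the numbers of common lower covers
-/

namespace Pool.Agent.GaussPoset.Np

set_option linter.unusedSectionVars false

open Finset Polynomial Win Wd Cl

universe u

variable {P : Type u} [Fintype P] [PartialOrder P] [DecidableEq P] {r : ℕ}
  {lo hi : Tops P → ℕ → ℕ} {e : Tops P → ℕ → ℕ → P}

/-- the row of level 14 of `La7` -/
lemma la7_row (K : Sm.Ctx P r 14 lo hi e) {t : Tops P} (D : WordD 14 7 wa7 (lo t) (hi t)) :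
    Rw P 14 (t : P) 4 (fun a => e t 14 (3 + a)) := by
  obtain ⟨⟨a1, a2⟩, -⟩ := la7_bd D (K.comp t)
  have S := (K.comp t).toWin.rw_row (i := 13) K.gt (by omega) t.2
  rw [show 13 + 1 = 14 from rfl, a1, a2] at S
  exact S

/-- the pendants of the inner elements -/
lemma la7_pen (K : Sm.Ctx P r 14 lo hi e)
    (hA : ∀ t a, lo t 12 + 2 ≤ a → a ≤ hi t 12 → pen (e t 14 a) = ∅) {t : Tops P}
    (D : WordD 14 7 wa7 (lo t) (hi t)) :
    (pen (e t 14 4)).card = 1 ∧ pen (e t 14 5) = ∅ ∧ pen (e t 14 6) = ∅ := by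
  obtain ⟨b14, b13, b12, b11, -⟩ := la7_bd D (K.comp t)
  have h5 : pen (e t 14 5) = ∅ := hA t 5 (by omega) (by omega)
  have hS := (near_level' (i := 13) K.gt (by omega)).2 t _ _ _ t.2 (K.comp t).toWin
  rcases hS with ⟨h1, -, -⟩ | ⟨-, -, b, hb, h1⟩ | ⟨h1, -, -⟩
  · refine absurd ⟨by omega, ?_, ?_, ?_⟩ h1
    · show lo t 12 = lo t 11 + 1
      omega
    · show lo t 13 = lo t 12
      omega
    · omega
  · have g5 := h1 5 (by omega) (by omega)
    rw [show 13 + 1 = 14 from rfl, h5, card_empty] at g5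
    have hb4 : b = 4 := by
      rcases hb with hb | ⟨hb, -⟩
      · omega
      · rw [if_pos (by omega)] at g5
        omega
    subst hb4
    have g4 := h1 4 (by omega) (by omega)
    have g6 := h1 6 (by omega) (by omega)
    rw [show 13 + 1 = 14 from rfl] at g4 g6
    rw [if_pos rfl] at g4
    rw [if_neg (by omega)] at g6
    exact ⟨g4, h5, card_eq_zero.1 g6⟩
  · exfalso
    obtain ⟨-, h2, -, -⟩ := h1
    have h3 : hi t 12 = hi t 11 := h2
    omega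

/-- the common lower covers of the elements which are not the first -/
lemma la7_far (K : Sm.Ctx P r 14 lo hi e) (hJ : Tv.JFB P)
    (h04 : ∀ t, WordD 14 7 wa7 (lo t) (hi t) → dcv (e t 14 3) (e t 14 7) = 0) {t : Tops P}
    (D : WordD 14 7 wa7 (lo t) (hi t)) {k : ℕ} (hk : 1 ≤ k) (hk4 : k ≤ 4) {w : P}
    (hw : lev w = 14) (hne : w ≠ e t 14 (3 + k)) (h1 : w ≠ e t 14 (3 + (k - 1)))
    (h2 : k < 4 → w ≠ e t 14 (3 + (k + 1))) : dcv (e t 14 (3 + k)) w = 0 := by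
  have S := la7_row K D
  by_contra hcon
  obtain ⟨z, hz, hz'⟩ := StA_of_dcv (Nat.one_le_iff_ne_zero.2 hcon)
  have hly : lev (e t 14 (3 + k)) = 14 := S.lev_x k hk4
  have hlz : lev z = 15 := by
    have := lev_cov K.gt.H hz
    omega
  have hle : e t 14 (3 + k) ≤ (t : P) := S.le_t k hk4
  have hnj : ¬ Hul.Jn z := fun hj => by
    have h3 := (join_y0 K hJ D hlz hj hz hle).1
    have := S.inj k 0 hk4 (by omega) h3
    omega
  have hwt : w ≤ (t : P) := le_of_not_jn t.2 hnj (hz.le.trans hle) hz'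
  obtain ⟨b, hb, rfl⟩ := S.surj w hw hwt
  have e1 : b ≠ k := by
    rintro rfl
    exact hne rfl
  have e2 : b ≠ k - 1 := by
    rintro rfl
    exact h1 rfl
  have e3 : k < 4 → b ≠ k + 1 := by
    rintro h rfl
    exact h2 h rfl
  rcases Nat.lt_or_ge b k with h3 | h3
  · have h4 := S.far b k (by omega) hk4 (by rw [StB_dcv_comm]; exact hcon)
    obtain ⟨rfl, rfl, -, -⟩ := h4
    have h5 := h04 t D
    rw [StB_dcv_comm] at h5
    exact hcon h5
  · have h4 := S.far k b (by omega) hb hcon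
    omega

/-- the arithmetic of the row -/
lemma la7_arith {g : ℕ → ℕ} (h1 : 1 ≤ g 0 + g 1 + 1 ∧ g 0 + g 1 + 1 ≤ 2)
    (h2 : 1 ≤ g 1 + g 2 ∧ g 1 + g 2 ≤ 2) (h3 : 1 ≤ g 2 + g 3 ∧ g 2 + g 3 ≤ 2)
    (h4 : 1 ≤ g 3 ∧ g 3 ≤ 2) :
    (g 0 = 0 ∧ ((g 1 = 1 ∧ g 2 = 1 ∧ g 3 = 1) ∨ (g 1 = 1 ∧ g 2 = 0 ∧ g 3 = 2) ∨
      (g 1 = 0 ∧ g 2 = 1 ∧ g 3 = 1))) ∨
    (g 0 = 0 ∧ g 1 = 1 ∧ g 2 = 0 ∧ g 3 = 1) ∨ (g 0 = 1 ∧ g 1 = 0 ∧ g 2 = 1 ∧ g 3 = 1) := by
  omega

/-- the sums of the row -/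
lemma la7_sums (K : Sm.Ctx P r 14 lo hi e) (hr : 15 ≤ r) (hJ : Tv.JFB P)
    (hA : ∀ t a, lo t 12 + 2 ≤ a → a ≤ hi t 12 → pen (e t 14 a) = ∅)
    (h4 : ∀ t, WordD 14 7 wa7 (lo t) (hi t) → pen (e t 14 7) = ∅)
    (h04 : ∀ t, WordD 14 7 wa7 (lo t) (hi t) → dcv (e t 14 3) (e t 14 7) = 0) {t : Tops P}
    (D : WordD 14 7 wa7 (lo t) (hi t)) {g : ℕ → ℕ}
    (hg : ∀ k, k < 4 → dcv (e t 14 (3 + k)) (e t 14 (3 + (k + 1))) = g k) :
    (1 ≤ g 0 + g 1 + 1 ∧ g 0 + g 1 + 1 ≤ 2) ∧ (1 ≤ g 1 + g 2 ∧ g 1 + g 2 ≤ 2) ∧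
      (1 ≤ g 2 + g 3 ∧ g 2 + g 3 ≤ 2) ∧ (1 ≤ g 3 ∧ g 3 ≤ 2) := by
  classical
  have H := K.gt.H
  have S := la7_row K D
  obtain ⟨p1, p2, p3⟩ := la7_pen K hA D
  have p4 := h4 t D
  have hdc : ∀ k, k ≤ 4 → 1 ≤ (dc (e t 14 (3 + k))).card ∧ (dc (e t 14 (3 + k))).card ≤ 2 := by
    intro k hk
    have hly : lev (e t 14 (3 + k)) = 14 := S.lev_x k hk
    obtain ⟨z, hz⟩ := exists_dc H (v := e t 14 (3 + k)) (by omega)
    exact ⟨card_pos.2 ⟨z, mem_dc.2 hz⟩, dc_card_le H _⟩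
  have hne : ∀ a b, a ≤ 4 → b ≤ 4 → a ≠ b → e t 14 (3 + a) ≠ e t 14 (3 + b) :=
    fun a b ha hb hab h => hab (S.inj a b ha hb h)
  have hmid : ∀ k, 1 ≤ k → k < 4 → g (k - 1) + g k + (pen (e t 14 (3 + k))).card =
      (dc (e t 14 (3 + k))).card := by
    intro k hk hk4
    have h1 := dc_sum_on H (v := e t 14 (3 + k)) (S.lev_x k (by omega))
      (I := {e t 14 (3 + (k - 1)), e t 14 (3 + (k + 1))}) (by
        intro w hw
        rw [mem_insert, mem_singleton] at hw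
        rcases hw with rfl | rfl
        · exact ⟨S.lev_x (k - 1) (by omega), hne _ _ (by omega) (by omega) (by omega)⟩
        · exact ⟨S.lev_x (k + 1) (by omega), hne _ _ (by omega) (by omega) (by omega)⟩) (by
        intro w hw h1 h2
        rw [mem_insert, mem_singleton, not_or] at h2
        exact la7_far K hJ h04 D hk (by omega) hw h1 h2.1 (fun _ => h2.2))
    rw [sum_pair (hne _ _ (by omega) (by omega) (by omega)), hg k hk4, StB_dcv_comm] at h1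
    have h2 := hg (k - 1) (by omega)
    rw [show k - 1 + 1 = k by omega] at h2
    rw [h2] at h1
    exact h1
  have hlast : g 3 + (pen (e t 14 7)).card = (dc (e t 14 7)).card := by
    have h1 := dc_sum_on H (v := e t 14 (3 + 4)) (S.lev_x 4 (by omega))
      (I := {e t 14 (3 + 3)}) (by
        intro w hw
        rw [mem_singleton] at hw
        subst hw
        exact ⟨S.lev_x 3 (by omega), hne _ _ (by omega) (by omega) (by omega)⟩) (by
        intro w hw h1 h2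
        rw [mem_singleton] at h2
        exact la7_far K hJ h04 D (by omega) (by omega) hw h1 h2 (fun h => absurd h (by omega)))
    rw [sum_singleton, StB_dcv_comm, hg 3 (by omega)] at h1
    exact h1
  have m1 : g 0 + g 1 + (pen (e t 14 4)).card = (dc (e t 14 4)).card :=
    hmid 1 (by omega) (by omega)
  have m2 : g 1 + g 2 + (pen (e t 14 5)).card = (dc (e t 14 5)).card :=
    hmid 2 (by omega) (by omega)
  have m3 : g 2 + g 3 + (pen (e t 14 6)).card = (dc (e t 14 6)).card :=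
    hmid 3 (by omega) (by omega)
  have d1 : 1 ≤ (dc (e t 14 4)).card ∧ (dc (e t 14 4)).card ≤ 2 := hdc 1 (by omega)
  have d2 : 1 ≤ (dc (e t 14 5)).card ∧ (dc (e t 14 5)).card ≤ 2 := hdc 2 (by omega)
  have d3 : 1 ≤ (dc (e t 14 6)).card ∧ (dc (e t 14 6)).card ≤ 2 := hdc 3 (by omega)
  have d4 : 1 ≤ (dc (e t 14 7)).card ∧ (dc (e t 14 7)).card ≤ 2 := hdc 4 (by omega)
  rw [p1] at m1
  rw [p2, card_empty] at m2
  rw [p3, card_empty] at m3
  rw [p4, card_empty] at hlast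
  omega

end Pool.Agent.GaussPoset.Np
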