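import Pool.Agent.W_448jb_h67.NpC

/-!
The near patterns of `La7` at `j = 14` (MP_448cb3_co, step B): the join and the three patterns
-/

namespace Pool.Agent.GaussPoset.Np

set_option linter.unusedSectionVars false

open Finset Polynomial Win Wd Cl

universe u

variable {P : Type u} [Fintype P] [PartialOrder P] [DecidableEq P] {r : ℕ}
  {lo hi : Tops P → ℕ → ℕ} {e : Tops P → ℕ → ℕ → P}

/-- the matching polynomial of the level, cut at the first element of the row -/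
theorem la7_cut (K : Sm.Ctx P r 14 lo hi e) (hr : 14 ≤ r) (hJ : Tv.JFB P)
    (h04 : ∀ t, WordD 14 7 wa7 (lo t) (hi t) → dcv (e t 14 3) (e t 14 7) = 0) {t : Tops P}
    (D : WordD 14 7 wa7 (lo t) (hi t)) {y : ℕ → P} (hy : y = fun k => e t 14 (3 + k))
    {B : Finset P} (hB : B = lv P 14 \ {y 0, y 1, y 2, y 3, y 4}) :
    St.mp (Df 14) {y 0, y 1, y 2, y 3, y 4} * St.mp (Df 14) B +
      St.mp (Df 14) {y 1, y 2, y 3, y 4} *
        ∑ u ∈ B, C (Df 14 {y 0, u}) * X * St.mp (Df 14) (B.erase u) = 1 := by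
  classical
  have H := K.gt.H
  have S : Rw P 14 (t : P) 4 y := by
    rw [hy]
    exact la7_row K D
  have hne : ∀ a b, a ≤ 4 → b ≤ 4 → a ≠ b → y a ≠ y b :=
    fun a b ha hb hab h => hab (S.inj a b ha hb h)
  have hnB : ∀ a, a ≤ 4 → y a ∉ B := by
    intro a ha h
    rw [hB, mem_sdiff] at h
    refine h.2 ?_
    simp only [mem_insert, mem_singleton]
    obtain rfl | rfl | rfl | rfl | rfl : a = 0 ∨ a = 1 ∨ a = 2 ∨ a = 3 ∨ a = 4 := by omega
    · exact Or.inl rfl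
    · exact Or.inr (Or.inl rfl)
    · exact Or.inr (Or.inr (Or.inl rfl))
    · exact Or.inr (Or.inr (Or.inr (Or.inl rfl)))
    · exact Or.inr (Or.inr (Or.inr (Or.inr rfl)))
  have hsub : ({y 0, y 1, y 2, y 3, y 4} : Finset P) ⊆ lv P 14 := by
    intro v hv
    simp only [mem_insert, mem_singleton] at hv
    rw [mem_lv]
    rcases hv with rfl | rfl | rfl | rfl | rfl
    · exact S.lev_x 0 (by omega)
    · exact S.lev_x 1 (by omega)
    · exact S.lev_x 2 (by omega)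
    · exact S.lev_x 3 (by omega)
    · exact S.lev_x 4 (by omega)
  have hlv : lv P 14 = insert (y 0) ({y 1, y 2, y 3, y 4} ∪ B) := by
    rw [hB, ← insert_union]
    exact (union_sdiff_of_subset hsub).symm
  have hV : ∀ u ∈ ({y 1, y 2, y 3, y 4} : Finset P), ∃ k, 1 ≤ k ∧ k ≤ 4 ∧ u = y k := by
    intro u hu
    simp only [mem_insert, mem_singleton] at hu
    rcases hu with rfl | rfl | rfl | rfl
    · exact ⟨1, by omega, by omega, rfl⟩
    · exact ⟨2, by omega, by omega, rfl⟩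
    · exact ⟨3, by omega, by omega, rfl⟩
    · exact ⟨4, by omega, by omega, rfl⟩
  have haV : y 0 ∉ ({y 1, y 2, y 3, y 4} : Finset P) := by
    intro h
    obtain ⟨k, h1, h2, h3⟩ := hV _ h
    exact hne 0 k (by omega) h2 (by omega) h3
  have hVB : Disjoint ({y 1, y 2, y 3, y 4} : Finset P) B := by
    rw [disjoint_left]
    intro u hu
    obtain ⟨k, h1, h2, rfl⟩ := hV _ hu
    exact hnB k h2
  have hx : ∀ u ∈ ({y 1, y 2, y 3, y 4} : Finset P), ∀ w ∈ B, Df 14 {u, w} = 0 := by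
    intro u hu w hw
    obtain ⟨k, h1, h2, rfl⟩ := hV _ hu
    have hw1 : ∀ a, a ≤ 4 → w ≠ y a := by
      rintro a ha rfl
      exact hnB a ha hw
    have hlw : lev w = 14 := by
      rw [hB, mem_sdiff] at hw
      exact mem_lv.1 hw.1
    have hd : dcv (y k) w = 0 := by
      have a1 := hw1 k h2
      have a2 := hw1 (k - 1) (by omega)
      have a3 : k < 4 → w ≠ y (k + 1) := fun h => hw1 (k + 1) (by omega)
      rw [hy] at a1 a2 a3 ⊢
      exact la7_far K hJ h04 D h1 h2 hlw a1 a2 a3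
    have hu0 : ucv (y k) w = 0 := by
      by_contra hcon
      have h5 := K.gt.top_of_ucv (v := y k) (v' := w) (t := t) (by rw [S.lev_x k h2])
        (Nat.one_le_iff_ne_zero.2 hcon) t.2 (S.le_t k h2)
      obtain ⟨b, hb, hb2⟩ := S.surj w hlw h5
      exact hw1 b hb hb2.symm
    rw [Df_pair H (S.lev_x k h2) (hw1 k h2).symm, hd, hu0]
    norm_num
  have h1 := mp_cut (Df 14 : Finset P → ℤ) haV (hnB 0 (by omega)) hVB hx
  rw [← hlv, St.mp_level H hr] at h1
  exact h1.symm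

/-- the three patterns of the strip `La7` -/
structure Pat (t : P) (f : ℕ → ℕ → P) : Prop where
  fb : ∃ z x, W4.FJn 14 z x (f 14 3) ∧ Sm.Dt 14 (f 14 3) (5, 25, 0)
  d34 : dcv (f 14 3) (f 14 4) = 0
  d37 : dcv (f 14 3) (f 14 7) = 0
  p3 : (pen (f 14 3)).card ≤ 1
  p4 : (pen (f 14 4)).card = 1
  p5 : pen (f 14 5) = ∅
  p6 : pen (f 14 6) = ∅
  p7 : pen (f 14 7) = ∅
  pat : (dcv (f 14 4) (f 14 5) = 1 ∧ dcv (f 14 5) (f 14 6) = 1 ∧ dcv (f 14 6) (f 14 7) = 1) ∨
    (dcv (f 14 4) (f 14 5) = 1 ∧ dcv (f 14 5) (f 14 6) = 0 ∧ dcv (f 14 6) (f 14 7) = 2) ∨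
    (dcv (f 14 4) (f 14 5) = 0 ∧ dcv (f 14 5) (f 14 6) = 1 ∧ dcv (f 14 6) (f 14 7) = 1)

/-- **Step B.**  If every join of level 15 is a join of a fold end and an end `(5, 25, 0)` and the
pendants of the doubles of level 14 are below the first doubles, then every component `La7` has
one of three patterns, and its first element of level 14 is below a join. -/
theorem la7_pat (K : Sm.Ctx P r 14 lo hi e) (hr : 15 ≤ r) (hJ : Tv.JFB P)
    (hA : ∀ t a, lo t 12 + 2 ≤ a → a ≤ hi t 12 → pen (e t 14 a) = ∅) {t : Tops P}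
    (D : WordD 14 7 wa7 (lo t) (hi t)) : Pat (t : P) (e t) := by
  classical
  have H := K.gt.H
  have h4 := Tv.pen_last K.gt K.comp K.shape
  have h04 := Tv.dcv_ends K.gt K.comp K.shape hJ
  obtain ⟨p4, p5, p6⟩ := la7_pen K hA D
  obtain ⟨y, hy⟩ : ∃ y : ℕ → P, y = fun k => e t 14 (3 + k) := ⟨_, rfl⟩
  obtain ⟨g, hgd⟩ : ∃ g : ℕ → ℕ, g = fun k => dcv (y k) (y (k + 1)) := ⟨_, rfl⟩
  have S : Rw P 14 (t : P) 4 y := by
    rw [hy]
    exact la7_row K D
  have hg : ∀ k, k < 4 → dcv (e t 14 (3 + k)) (e t 14 (3 + (k + 1))) = g k := by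
    intro k hk
    rw [hgd, hy]
  obtain ⟨s1, s2, s3, s4⟩ := la7_sums K hr hJ hA h4 h04 D hg
  have hcases := la7_arith s1 s2 s3 s4
  obtain ⟨B, hB⟩ : ∃ B : Finset P, B = lv P 14 \ {y 0, y 1, y 2, y 3, y 4} := ⟨_, rfl⟩
  have hcut := la7_cut K (by omega) hJ h04 D hy hB
  have hd04 : dcv (y 0) (y 4) = 0 := by
    rw [hy]
    exact h04 t D
  have hfar : ∀ a b, a + 2 ≤ b → b < 5 → Df 14 {y a, y b} = 0 := by
    intro a b h1 h2
    by_cases h3 : a = 0 ∧ b = 4
    · obtain ⟨rfl, rfl⟩ := h3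
      rw [S.Df_ends H (by omega), hd04]
      rfl
    · exact S.onStrip H a b (by omega) (by omega) h3
  have hc : ∀ a, a < 4 → Df 14 {y a, y (a + 1)} = (fun k => (g k : ℤ) - 1) a := by
    intro a ha
    rw [S.Df_adj H ha, hgd]
  obtain ⟨ev1, ev0⟩ := ev_path (A := (Df 14 : Finset P → ℤ)) (y := y)
    (fun a ha b hb h => S.inj a b (by omega) (by omega) h) hfar hc

  have hev := congrArg (eval 1) hcut
  rw [eval_add, eval_mul, eval_mul, ev1, ev0, eval_one] at hev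
  -- the first element is below a join
  have hjoin : ∃ u ∈ B, Df 14 {y 0, u} ≠ 0 := by
    by_contra hcon
    push Not at hcon
    have h0 : ∑ u ∈ B, C (Df 14 {y 0, u}) * X * St.mp (Df 14) (B.erase u) = 0 := by
      refine sum_eq_zero fun u hu => ?_
      rw [hcon u hu]
      simp
    rw [h0, mul_zero, add_zero] at hcut
    have h1 := St.eq_one_of_mul hcut St.coeff_zero_mp
    have h2 := congrArg (eval 1) h1
    rw [ev0, eval_one] at h2
    rcases hcases with ⟨g0, ⟨g1, g2, g3⟩ | ⟨g1, g2, g3⟩ | ⟨g1, g2, g3⟩⟩ | ⟨g0, g1, g2, g3⟩ |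
      ⟨g0, g1, g2, g3⟩ <;>
    · rw [g0, g1, g2, g3] at h2
      norm_num at h2
  obtain ⟨u, huB, hu⟩ := hjoin
  have hul : lev u = 14 := by
    rw [hB, mem_sdiff] at huB
    exact mem_lv.1 huB.1
  have hun : ∀ a, a ≤ 4 → u ≠ y a := by
    rintro a ha rfl
    rw [hB, mem_sdiff] at huB
    refine huB.2 ?_
    simp only [mem_insert, mem_singleton]
    obtain rfl | rfl | rfl | rfl | rfl : a = 0 ∨ a = 1 ∨ a = 2 ∨ a = 3 ∨ a = 4 := by omega
    · exact Or.inl rfl
    · exact Or.inr (Or.inl rfl)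
    · exact Or.inr (Or.inr (Or.inl rfl))
    · exact Or.inr (Or.inr (Or.inr (Or.inl rfl)))
    · exact Or.inr (Or.inr (Or.inr (Or.inr rfl)))
  have hut : ¬ u ≤ (t : P) := fun h => by
    obtain ⟨b, hb, hb2⟩ := S.surj u hul h
    exact hun b hb hb2.symm
  have hdu : dcv (y 0) u ≠ 0 := by
    intro h
    refine hu ?_
    have hu0 : ucv (y 0) u = 0 := by
      by_contra hcon
      exact hut (K.gt.top_of_ucv (v := y 0) (v' := u) (t := t) (by rw [S.lev_x 0 (by omega)])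
        (Nat.one_le_iff_ne_zero.2 hcon) t.2 (S.le_t 0 (by omega)))
    rw [Df_pair H (S.lev_x 0 (by omega)) (hun 0 (by omega)).symm, h, hu0]
    norm_num
  obtain ⟨z, hz, hz'⟩ := StA_of_dcv (Nat.one_le_iff_ne_zero.2 hdu)
  have hlz : lev z = 15 := by
    have h1 := lev_cov H hz
    rw [S.lev_x 0 (by omega)] at h1
    exact h1
  have hzj : Hul.Jn z := by
    by_contra hcon
    exact hut (le_of_not_jn t.2 hcon (hz.le.trans (S.le_t 0 (by omega))) hz')
  have hfb := join_y0 K hJ D hlz hzj hz (S.le_t 0 (by omega))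
  -- the lower covers of the first element
  have hsum : g 0 + dcv (y 0) u + (pen (y 0)).card ≤ 2 := by
    have h1 := dc_sum_le H (v := y 0) (S.lev_x 0 (by omega)) (I := {y 1, u}) (by
      intro w hw
      rw [mem_insert, mem_singleton] at hw
      rcases hw with rfl | rfl
      · exact ⟨S.lev_x 1 (by omega), fun h => by
          have := S.inj 1 0 (by omega) (by omega) h
          omega⟩
      · exact ⟨hul, hun 0 (by omega)⟩)
    rw [sum_pair (hun 1 (by omega)).symm] at h1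
    rw [hgd]
    exact h1
  have hg0 : g 0 = 0 ∧ ((g 1 = 1 ∧ g 2 = 1 ∧ g 3 = 1) ∨ (g 1 = 1 ∧ g 2 = 0 ∧ g 3 = 2) ∨
      (g 1 = 0 ∧ g 2 = 1 ∧ g 3 = 1)) := by
    rcases hcases with h | ⟨g0, g1, g2, g3⟩ | ⟨g0, g1, g2, g3⟩
    · exact h
    · exfalso
      rw [g0, g1, g2, g3] at hev
      norm_num at hev
    · exfalso
      rw [g0, g1, g2, g3] at hev
      norm_num at hev
  obtain ⟨g0, hpat⟩ := hg0
  have ey : ∀ k, y k = e t 14 (3 + k) := fun k => by rw [hy]
  obtain ⟨e0, x, hx1, hx2⟩ := hfb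
  rw [e0] at hx1 hx2
  refine ⟨⟨z, x, hx1, hx2⟩, ?_, h04 t D, ?_, p4, p5, p6, h4 t D, ?_⟩
  · rw [← g0]
    exact hg 0 (by omega)
  · have h1 : (pen (y 0)).card ≤ 1 := by omega
    rw [e0] at h1
    exact h1
  · have f1 : dcv (e t 14 4) (e t 14 5) = g 1 := hg 1 (by omega)
    have f2 : dcv (e t 14 5) (e t 14 6) = g 2 := hg 2 (by omega)
    have f3 : dcv (e t 14 6) (e t 14 7) = g 3 := hg 3 (by omega)
    rw [f1, f2, f3]
    exact hpat

end Pool.Agent.GaussPoset.Np
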