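import Pool.Agent.W_448jb_h67.NpD
import Pool.Agent.W_448w7_h94.WiA

/-!
The near patterns of `La7` at `j = 14` (MP_448cb3_co, step B): the elements of level 15 below the
elements `1, …, 4` of the row, as masks
-/

namespace Pool.Agent.GaussPoset.Np

set_option linter.unusedSectionVars false

open Finset Polynomial Win Wd Cl

universe u

variable {P : Type u} [Fintype P] [PartialOrder P] [DecidableEq P] {r : ℕ}
  {lo hi : Tops P → ℕ → ℕ} {e : Tops P → ℕ → ℕ → P}

/-- the covers of the elements of level 15 below the elements `1, …, 4` of the row -/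
theorem la7_cov (K : Sm.Ctx P r 14 lo hi e) (hJ : Tv.JFB P) {t : Tops P}
    (D : WordD 14 7 wa7 (lo t) (hi t)) (Pt : Pat (t : P) (e t)) {z : P} {k : ℕ} (hk : 1 ≤ k)
    (hk4 : k ≤ 4) (hzk : z ⋖ e t 14 (3 + k)) :
    (∀ y, z ⋖ y ↔ y = e t 14 4) ∨ ∃ a, 1 ≤ a ∧ a ≤ 3 ∧
      ∀ y, z ⋖ y ↔ y = e t 14 (3 + a) ∨ y = e t 14 (3 + (a + 1)) := by
  have H := K.gt.H
  have S := la7_row K D
  have h04 := Tv.dcv_ends K.gt K.comp K.shape hJ
  have hly : lev (e t 14 (3 + k)) = 14 := S.lev_x k hk4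
  have hlz : lev z = 15 := by
    have := lev_cov H hzk
    omega
  rcases uc_card_cases H (x := z) (by omega) with h1 | h1
  · left
    have hzp : z ∈ pen (e t 14 (3 + k)) := mem_pen.2 ⟨hzk, h1⟩
    obtain rfl | rfl | rfl | rfl : k = 1 ∨ k = 2 ∨ k = 3 ∨ k = 4 := by omega
    · intro y
      constructor
      · intro hy
        exact uc_unique h1 hy hzk
      · rintro rfl
        exact hzk
    · have hzp' : z ∈ pen (e t 14 5) := hzp
      rw [Pt.p5] at hzp'
      exact absurd hzp' (notMem_empty _)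
    · have hzp' : z ∈ pen (e t 14 6) := hzp
      rw [Pt.p6] at hzp'
      exact absurd hzp' (notMem_empty _)
    · have hzp' : z ∈ pen (e t 14 7) := hzp
      rw [Pt.p7] at hzp'
      exact absurd hzp' (notMem_empty _)
  · right
    obtain ⟨w, hw, hwn⟩ := exists_other_uc (y := e t 14 (3 + k)) h1
    have hlw : lev w = 14 := by
      have := lev_cov H hw
      omega
    have hd := StA_dcv_pos hzk hw
    have huc := StB_uc_pair H hzk hw hwn.symm
    have hiff : ∀ y, z ⋖ y ↔ y = e t 14 (3 + k) ∨ y = w := by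
      intro y
      rw [← mem_uc, huc, mem_insert, mem_singleton]
    by_cases e1 : w = e t 14 (3 + (k - 1))
    · by_cases hk1 : k = 1
      · exfalso
        subst hk1
        have e2 : w = e t 14 3 := e1
        have e3 := Pt.d34
        rw [e2, StB_dcv_comm] at hd
        have e4 : 1 ≤ dcv (e t 14 3) (e t 14 4) := hd
        omega
      · refine ⟨k - 1, by omega, by omega, fun y => ?_⟩
        rw [hiff, e1, show k - 1 + 1 = k by omega]
        exact or_comm
    · by_cases e2 : k < 4 ∧ w = e t 14 (3 + (k + 1))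
      · refine ⟨k, hk, by omega, fun y => ?_⟩
        rw [hiff, e2.2]
      · exfalso
        have h5 := la7_far K hJ h04 D hk hk4 hlw hwn e1 (fun h h' => e2 ⟨h, h'⟩)
        omega

/-- an element with one cover, as a mask -/
lemma mk_one {f : ℕ → ℕ → P} {z : P} {m a : ℕ} (hl : lev z = 15) (ha : a < 30)
    (hm : ∀ c < 30, m.testBit c = true ↔ c = a) (h : ∀ y, z ⋖ y ↔ y = Sg.ce f a) :
    Sg.Mk f z m := by
  refine ⟨hl, fun y => ?_⟩
  rw [h]
  constructor
  · rintro rfl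
    exact ⟨a, ha, (hm a ha).2 rfl, rfl⟩
  · rintro ⟨b, hb, hb2, rfl⟩
    rw [(hm b hb).1 hb2]

/-- an element with two covers, as a mask -/
lemma mk_two {f : ℕ → ℕ → P} {z : P} {m a b : ℕ} (hl : lev z = 15) (ha : a < 30) (hb : b < 30)
    (hm : ∀ c < 30, m.testBit c = true ↔ c = a ∨ c = b)
    (h : ∀ y, z ⋖ y ↔ y = Sg.ce f a ∨ y = Sg.ce f b) : Sg.Mk f z m := by
  refine ⟨hl, fun y => ?_⟩
  rw [h]
  constructor
  · rintro (rfl | rfl)
    · exact ⟨a, ha, (hm a ha).2 (Or.inl rfl), rfl⟩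
    · exact ⟨b, hb, (hm b hb).2 (Or.inr rfl), rfl⟩
  · rintro ⟨c, hc, hc2, rfl⟩
    rcases (hm c hc).1 hc2 with rfl | rfl
    · exact Or.inl rfl
    · exact Or.inr rfl

lemma bit_p : ∀ c < 30, (67108864 : ℕ).testBit c = true ↔ c = 26 := by decide +kernel

lemma bit_1 : ∀ c < 30, (201326592 : ℕ).testBit c = true ↔ c = 26 ∨ c = 27 := by decide +kernel

lemma bit_2 : ∀ c < 30, (402653184 : ℕ).testBit c = true ↔ c = 27 ∨ c = 28 := by decide +kernel

lemma bit_3 : ∀ c < 30, (805306368 : ℕ).testBit c = true ↔ c = 28 ∨ c = 29 := by decide +kernel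

/-- one common lower cover -/
lemma dcv_uniq {v w z z' : P} (h : dcv v w ≤ 1) (h1 : z ⋖ v) (h2 : z ⋖ w) (h3 : z' ⋖ v)
    (h4 : z' ⋖ w) : z = z' := by
  classical
  unfold dcv at h
  rw [card_le_one] at h
  exact h z (mem_filter.2 ⟨mem_univ _, h1, h2⟩) z' (mem_filter.2 ⟨mem_univ _, h3, h4⟩)

/-- two common lower covers -/
lemma dcv_two {v w : P} (h : dcv v w = 2) : ∃ z z', z ≠ z' ∧ z ⋖ v ∧ z ⋖ w ∧ z' ⋖ v ∧ z' ⋖ w ∧
    ∀ x, x ⋖ v → x ⋖ w → x = z ∨ x = z' := by
  classical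
  unfold dcv at h
  obtain ⟨z, z', h1, h2⟩ := card_eq_two.1 h
  have h3 : ∀ x, x ⋖ v ∧ x ⋖ w ↔ x = z ∨ x = z' := by
    intro x
    have h4 : x ∈ univ.filter (fun x => x ⋖ v ∧ x ⋖ w) ↔ x ∈ ({z, z'} : Finset P) := by rw [h2]
    rw [mem_filter, mem_insert, mem_singleton] at h4
    simpa using h4
  have a1 := (h3 z).2 (Or.inl rfl)
  have a2 := (h3 z').2 (Or.inr rfl)
  exact ⟨z, z', h1, a1.1, a1.2, a2.1, a2.2, fun x hx hx' => (h3 x).1 ⟨hx, hx'⟩⟩

end Pool.Agent.GaussPoset.Np
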