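import Pool.Agent.W_448jb_h67.NpE

/-!
The near patterns of `La7` at `j = 14` (MP_448cb3_co, step B): the structures `JA`, `JB`
-/

namespace Pool.Agent.GaussPoset.Np

set_option linter.unusedSectionVars false

open Finset Polynomial Win Wd Cl

universe u

variable {P : Type u} [Fintype P] [PartialOrder P] [DecidableEq P] {r : ℕ}
  {lo hi : Tops P → ℕ → ℕ} {e : Tops P → ℕ → ℕ → P}

/-- **Step B**, the elements of level 15 below the elements `1, …, 4` of the row of `La7` -/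
theorem la7_JAB (K : Sm.Ctx P r 14 lo hi e) (hr : 15 ≤ r) (hJ : Tv.JFB P)
    (hA : ∀ t a, lo t 12 + 2 ≤ a → a ≤ hi t 12 → pen (e t 14 a) = ∅) {t : Tops P}
    (D : WordD 14 7 wa7 (lo t) (hi t)) :
    ∃ A : Finset P, (∀ x, x ∈ A ↔ ∃ k, 4 ≤ k ∧ k ≤ 7 ∧ x ⋖ e t 14 k) ∧
      ((∃ c, W7.JA (e t) A c) ∨ ∃ c c', W7.JB (e t) A c c') := by
  classical
  have H := K.gt.H
  have Pt := la7_pat K hr hJ hA D
  have S := la7_row K D
  have c26 : ∀ f : ℕ → ℕ → P, Sg.ce f 26 = f 14 4 := fun f => rfl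
  have c27 : ∀ f : ℕ → ℕ → P, Sg.ce f 27 = f 14 5 := fun f => rfl
  have c28 : ∀ f : ℕ → ℕ → P, Sg.ce f 28 = f 14 6 := fun f => rfl
  have c29 : ∀ f : ℕ → ℕ → P, Sg.ce f 29 = f 14 7 := fun f => rfl
  have hl : ∀ z k, 1 ≤ k → k ≤ 4 → z ⋖ e t 14 (3 + k) → lev z = 15 := by
    intro z k hk hk4 hz
    have h1 := lev_cov H hz
    rw [S.lev_x k hk4] at h1
    exact h1
  have hcov : ∀ z k, 4 ≤ k → k ≤ 7 → z ⋖ e t 14 k →
      (∀ y, z ⋖ y ↔ y = e t 14 4) ∨ (∀ y, z ⋖ y ↔ y = e t 14 4 ∨ y = e t 14 5) ∨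
      (∀ y, z ⋖ y ↔ y = e t 14 5 ∨ y = e t 14 6) ∨
      (∀ y, z ⋖ y ↔ y = e t 14 6 ∨ y = e t 14 7) := by
    intro z k hk hk7 hz
    obtain ⟨k', rfl⟩ : ∃ k', k = 3 + k' := ⟨k - 3, by omega⟩
    rcases la7_cov K hJ D Pt (k := k') (by omega) (by omega) hz with h | ⟨a, h1, h2, h⟩
    · exact Or.inl h
    · obtain rfl | rfl | rfl : a = 1 ∨ a = 2 ∨ a = 3 := by omega
      · exact Or.inr (Or.inl h)
      · exact Or.inr (Or.inr (Or.inl h))
      · exact Or.inr (Or.inr (Or.inr h))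
  set A : Finset P := univ.filter (fun x => ∃ k, 4 ≤ k ∧ k ≤ 7 ∧ x ⋖ e t 14 k) with hAd
  have mA : ∀ x, x ∈ A ↔ ∃ k, 4 ≤ k ∧ k ≤ 7 ∧ x ⋖ e t 14 k := by
    intro x
    rw [hAd, mem_filter]
    exact ⟨fun h => h.2, fun h => ⟨mem_univ _, h⟩⟩
  have hlA : ∀ x ∈ A, lev x = 15 := by
    intro x hx
    obtain ⟨k, h1, h2, h3⟩ := (mA x).1 hx
    exact hl x (k - 3) (by omega) (by omega) (by rw [show 3 + (k - 3) = k by omega]; exact h3)
  have hcA : ∀ x ∈ A, (∀ y, x ⋖ y ↔ y = e t 14 4) ∨ (∀ y, x ⋖ y ↔ y = e t 14 4 ∨ y = e t 14 5) ∨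
      (∀ y, x ⋖ y ↔ y = e t 14 5 ∨ y = e t 14 6) ∨
      (∀ y, x ⋖ y ↔ y = e t 14 6 ∨ y = e t 14 7) := by
    intro x hx
    obtain ⟨k, h1, h2, h3⟩ := (mA x).1 hx
    exact hcov x k h1 h2 h3
  have mkp : ∀ x, lev x = 15 → (∀ y, x ⋖ y ↔ y = e t 14 4) → Sg.Mk (e t) x 67108864 :=
    fun x h1 h2 => mk_one (a := 26) h1 (by norm_num) bit_p h2
  have mk1 : ∀ x, lev x = 15 → (∀ y, x ⋖ y ↔ y = e t 14 4 ∨ y = e t 14 5) →
      Sg.Mk (e t) x 201326592 :=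
    fun x h1 h2 => mk_two (a := 26) (b := 27) h1 (by norm_num) (by norm_num) bit_1 h2
  have mk2 : ∀ x, lev x = 15 → (∀ y, x ⋖ y ↔ y = e t 14 5 ∨ y = e t 14 6) →
      Sg.Mk (e t) x 402653184 :=
    fun x h1 h2 => mk_two (a := 27) (b := 28) h1 (by norm_num) (by norm_num) bit_2 h2
  have mk3 : ∀ x, lev x = 15 → (∀ y, x ⋖ y ↔ y = e t 14 6 ∨ y = e t 14 7) →
      Sg.Mk (e t) x 805306368 :=
    fun x h1 h2 => mk_two (a := 28) (b := 29) h1 (by norm_num) (by norm_num) bit_3 h2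
  have all : ∀ x ∈ A, Sg.Mk (e t) x 67108864 ∨ Sg.Mk (e t) x 201326592 ∨
      Sg.Mk (e t) x 402653184 ∨ Sg.Mk (e t) x 805306368 := by
    intro x hx
    rcases hcA x hx with h | h | h | h
    · exact Or.inl (mkp x (hlA x hx) h)
    · exact Or.inr (Or.inl (mk1 x (hlA x hx) h))
    · exact Or.inr (Or.inr (Or.inl (mk2 x (hlA x hx) h)))
    · exact Or.inr (Or.inr (Or.inr (mk3 x (hlA x hx) h)))
  -- the elements of the two row pairs are different
  have hne : ∀ a b, a ≤ 4 → b ≤ 4 → a ≠ b → e t 14 (3 + a) ≠ e t 14 (3 + b) :=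
    fun a b ha hb hab h => hab (S.inj a b ha hb h)
  have n45 : e t 14 4 ≠ e t 14 5 := hne 1 2 (by omega) (by omega) (by omega)
  have n46 : e t 14 4 ≠ e t 14 6 := hne 1 3 (by omega) (by omega) (by omega)
  have n47 : e t 14 4 ≠ e t 14 7 := hne 1 4 (by omega) (by omega) (by omega)
  have n56 : e t 14 5 ≠ e t 14 6 := hne 2 3 (by omega) (by omega) (by omega)
  have n57 : e t 14 5 ≠ e t 14 7 := hne 2 4 (by omega) (by omega) (by omega)
  have n67 : e t 14 6 ≠ e t 14 7 := hne 3 4 (by omega) (by omega) (by omega)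
  -- the pendant
  obtain ⟨p, hp⟩ := card_eq_one.1 Pt.p4
  have hp1 : p ∈ pen (e t 14 4) := by
    rw [hp]
    exact mem_singleton_self p
  rw [mem_pen] at hp1
  have hpA : p ∈ A := (mA p).2 ⟨4, by omega, by omega, hp1.1⟩
  have hpc : ∀ y, p ⋖ y ↔ y = e t 14 4 := fun y =>
    ⟨fun hy => uc_unique hp1.2 hy hp1.1, fun hy => hy ▸ hp1.1⟩
  have hpu : ∀ x, (∀ y, x ⋖ y ↔ y = e t 14 4) → x = p := by
    intro x hx
    have h1 : x ∈ pen (e t 14 4) := by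
      rw [mem_pen]
      refine ⟨(hx _).2 rfl, ?_⟩
      rw [card_eq_one]
      refine ⟨e t 14 4, ?_⟩
      ext y
      rw [mem_uc, mem_singleton]
      exact hx y
    rw [hp, mem_singleton] at h1
    exact h1
  -- equal masks
  have same : ∀ x y m, Sg.Mk (e t) x m → Sg.Mk (e t) y m → ∀ w, x ⋖ w → y ⋖ w :=
    fun x y m hx hy w hw => (hy.2 w).2 ((hx.2 w).1 hw)
  have pq : ∀ a b, a ≤ 4 → b ≤ 4 → a ≠ b → dcv (e t 14 (3 + a)) (e t 14 (3 + b)) ≠ 0 →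
      ∃ z, z ⋖ e t 14 (3 + a) ∧ z ⋖ e t 14 (3 + b) := fun a b _ _ _ h =>
    StA_of_dcv (Nat.one_le_iff_ne_zero.2 h)
  refine ⟨A, mA, ?_⟩
  have uq : ∀ x ∈ A, ∀ y ∈ A, ∀ m, Sg.Mk (e t) x m → Sg.Mk (e t) y m →
      dcv (e t 14 4) (e t 14 5) ≤ 1 → dcv (e t 14 5) (e t 14 6) ≤ 1 →
      (x ⋖ e t 14 7 → dcv (e t 14 6) (e t 14 7) ≤ 1) → x = y := by
    intro x hx y hy m hxm hym d1 d2 d3
    have s1 := same x y m hxm hym
    have s2 := same y x m hym hxm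
    rcases hcA x hx with h | h | h | h
    · rw [hpu x h, hpu y fun w => ⟨fun hw => (h w).1 (s2 w hw), fun hw => s1 w ((h w).2 hw)⟩]
    · exact dcv_uniq d1 ((h _).2 (Or.inl rfl)) ((h _).2 (Or.inr rfl))
        (s1 _ ((h _).2 (Or.inl rfl))) (s1 _ ((h _).2 (Or.inr rfl)))
    · exact dcv_uniq d2 ((h _).2 (Or.inl rfl)) ((h _).2 (Or.inr rfl))
        (s1 _ ((h _).2 (Or.inl rfl))) (s1 _ ((h _).2 (Or.inr rfl)))
    · exact dcv_uniq (d3 ((h _).2 (Or.inr rfl))) ((h _).2 (Or.inl rfl)) ((h _).2 (Or.inr rfl))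
        (s1 _ ((h _).2 (Or.inl rfl))) (s1 _ ((h _).2 (Or.inr rfl)))
  have hmem : ∀ k z, 4 ≤ k → k ≤ 7 → z ⋖ e t 14 k → z ∈ A :=
    fun k z h1 h2 h3 => (mA z).2 ⟨k, h1, h2, h3⟩
  -- the elements below two neighbours
  have cv45 : ∀ z, z ⋖ e t 14 4 → z ⋖ e t 14 5 → ∀ y, z ⋖ y ↔ y = e t 14 4 ∨ y = e t 14 5 := by
    intro z h1 h2
    rcases hcA z (hmem 4 z (by omega) (by omega) h1) with h | h | h | h
    · exact absurd ((h _).1 h2).symm n45
    · exact h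
    · rcases (h _).1 h1 with h3 | h3
      · exact absurd h3 n45
      · exact absurd h3 n46
    · rcases (h _).1 h1 with h3 | h3
      · exact absurd h3 n46
      · exact absurd h3 n47
  have cv56 : ∀ z, z ⋖ e t 14 5 → z ⋖ e t 14 6 → ∀ y, z ⋖ y ↔ y = e t 14 5 ∨ y = e t 14 6 := by
    intro z h1 h2
    rcases hcA z (hmem 5 z (by omega) (by omega) h1) with h | h | h | h
    · exact absurd ((h _).1 h1).symm n45
    · rcases (h _).1 h2 with h3 | h3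
      · exact absurd h3.symm n46
      · exact absurd h3.symm n56
    · exact h
    · rcases (h _).1 h1 with h3 | h3
      · exact absurd h3 n56
      · exact absurd h3 n57
  have cv67 : ∀ z, z ⋖ e t 14 6 → z ⋖ e t 14 7 → ∀ y, z ⋖ y ↔ y = e t 14 6 ∨ y = e t 14 7 := by
    intro z h1 h2
    rcases hcA z (hmem 6 z (by omega) (by omega) h1) with h | h | h | h
    · exact absurd ((h _).1 h1).symm n46
    · rcases (h _).1 h1 with h3 | h3
      · exact absurd h3.symm n46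
      · exact absurd h3.symm n56
    · rcases (h _).1 h2 with h3 | h3
      · exact absurd h3.symm n57
      · exact absurd h3.symm n67
    · exact h
  rcases Pt.pat with ⟨d1, d2, d3⟩ | ⟨d1, d2, d3⟩ | ⟨d1, d2, d3⟩
  · -- `J`
    left
    obtain ⟨z2, g1, g2⟩ := StA_of_dcv (v := e t 14 5) (v' := e t 14 6) (by omega)
    obtain ⟨z3, g3, g4⟩ := StA_of_dcv (v := e t 14 6) (v' := e t 14 7) (by omega)
    have m2 := hmem 5 z2 (by omega) (by omega) g1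
    have m3 := hmem 6 z3 (by omega) (by omega) g3
    exact ⟨z3, m3, mk3 z3 (hlA _ m3) (cv67 z3 g3 g4), ⟨p, hpA, mkp p (hlA _ hpA) hpc⟩,
      ⟨z2, m2, mk2 z2 (hlA _ m2) (cv56 z2 g1 g2)⟩, all,
      fun x hx y hy m hxm hym => uq x hx y hy m hxm hym (by omega) (by omega) (fun _ => by omega)⟩
  · -- two elements below the last pair
    right
    obtain ⟨z1, g1, g2⟩ := StA_of_dcv (v := e t 14 4) (v' := e t 14 5) (by omega)
    obtain ⟨z, z', hzz, g3, g4, g5, g6, g7⟩ := dcv_two d3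
    have m1 := hmem 4 z1 (by omega) (by omega) g1
    have m3 := hmem 6 z (by omega) (by omega) g3
    have m4 := hmem 6 z' (by omega) (by omega) g5
    refine ⟨z, z', m3, m4, hzz, mk3 z (hlA _ m3) (cv67 z g3 g4),
      mk3 z' (hlA _ m4) (cv67 z' g5 g6), ⟨p, hpA, mkp p (hlA _ hpA) hpc⟩,
      ⟨z1, m1, mk1 z1 (hlA _ m1) (cv45 z1 g1 g2)⟩, ?_, ?_⟩
    · intro x hx
      rcases hcA x hx with h | h | h | h
      · exact Or.inl (mkp x (hlA x hx) h)
      · exact Or.inr (Or.inl (mk1 x (hlA x hx) h))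
      · exfalso
        have h1 := StA_dcv_pos ((h _).2 (Or.inl rfl)) ((h _).2 (Or.inr rfl))
        omega
      · exact Or.inr (Or.inr (g7 x ((h _).2 (Or.inl rfl)) ((h _).2 (Or.inr rfl))))
    · intro x hx y hy m hm hxm hym
      refine uq x hx y hy m hxm hym (by omega) (by omega) fun hx7 => ?_
      exfalso
      obtain ⟨b, hb, hb2, hb3⟩ := (hxm.2 _).1 hx7
      have h1 : b = 26 ∨ b = 27 := by
        rcases hm with rfl | rfl
        · exact Or.inl ((bit_p b hb).1 hb2)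
        · exact (bit_1 b hb).1 hb2
      rcases h1 with rfl | rfl
      · exact n47 hb3
      · exact n57 hb3
  · left
    obtain ⟨z2, g1, g2⟩ := StA_of_dcv (v := e t 14 5) (v' := e t 14 6) (by omega)
    obtain ⟨z3, g3, g4⟩ := StA_of_dcv (v := e t 14 6) (v' := e t 14 7) (by omega)
    have m2 := hmem 5 z2 (by omega) (by omega) g1
    have m3 := hmem 6 z3 (by omega) (by omega) g3
    exact ⟨z3, m3, mk3 z3 (hlA _ m3) (cv67 z3 g3 g4), ⟨p, hpA, mkp p (hlA _ hpA) hpc⟩,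
      ⟨z2, m2, mk2 z2 (hlA _ m2) (cv56 z2 g1 g2)⟩, all,
      fun x hx y hy m hxm hym => uq x hx y hy m hxm hym (by omega) (by omega) (fun _ => by omega)⟩

end Pool.Agent.GaussPoset.Np
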