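import Pool.Agent.W_448jb_h67.NpF

/-!
The elements of level 15 of a component `La7` at `j = 14` (MP_448cb3_co, step B)
-/

namespace Pool.Agent.GaussPoset.Np

set_option linter.unusedSectionVars false

open Finset Win Wd Cl

universe u

variable {P : Type u} [Fintype P] [PartialOrder P] [DecidableEq P] {r : ℕ}
  {lo hi : Tops P → ℕ → ℕ} {e : Tops P → ℕ → ℕ → P}

lemma bit_0 : ∀ c < 30, (33554432 : ℕ).testBit c = true ↔ c = 25 := by decide +kernel

/-- the elements of level 15 below one component: below the elements `1, …, 4` of the row, or a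
pendant of the first -/
theorem la7_full (K : Sm.Ctx P r 14 lo hi e) {t : Tops P} (D : WordD 14 7 wa7 (lo t) (hi t))
    {A : Finset P} (mA : ∀ x, x ∈ A ↔ ∃ k, 4 ≤ k ∧ k ≤ 7 ∧ x ⋖ e t 14 k) :
    (∀ x ∈ A, lev x = 15) ∧ ∀ z, lev z = 15 → (∀ y, z ⋖ y → y ≤ (t : P)) →
      z ∈ A ∨ Sg.Mk (e t) z 33554432 := by
  have H := K.gt.H
  have S := la7_row K D
  constructor
  · intro x hx
    obtain ⟨k, h1, h2, h3⟩ := (mA x).1 hx
    have h4 := lev_cov H h3
    have h5 := S.lev_x (k - 3) (by omega)
    rw [show 3 + (k - 3) = k by omega] at h5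
    omega
  · intro z hz hc
    by_cases hA : z ∈ A
    · exact Or.inl hA
    · right
      have h0 : ∀ y, z ⋖ y → y = e t 14 3 := by
        intro y hy
        have hly : lev y = 14 := by
          have := lev_cov H hy
          omega
        obtain ⟨b, hb, hby⟩ := S.surj y hly (hc y hy)
        have h1 : e t 14 (3 + b) = y := hby
        by_cases hb0 : b = 0
        · subst hb0
          exact h1.symm
        · exfalso
          refine hA ((mA z).2 ⟨3 + b, by omega, by omega, ?_⟩)
          rw [h1]
          exact hy
      have h1 : z ⋖ e t 14 3 := by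
        rcases uc_card_cases H (x := z) (by omega) with h2 | h2
        · obtain ⟨v, hv⟩ := card_eq_one.1 h2
          have h3 : v ∈ uc z := by rw [hv]; exact mem_singleton_self v
          rw [mem_uc] at h3
          rw [← h0 v h3]
          exact h3
        · obtain ⟨v, hv, -⟩ := exists_other_uc (y := e t 14 3) h2
          rw [← h0 v hv]
          exact hv
      exact mk_one (a := 25) hz (by norm_num) bit_0 fun y => ⟨h0 y, fun h => by rw [h]; exact h1⟩

end Pool.Agent.GaussPoset.Np
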