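import Pool.Agent.W_448jb_h67.NpF
import Pool.Agent.W_448s8f_h76.FrH

/-!
The near patterns of `La7` at `j = 14` (MP_448cb3_co, step B), without hypotheses: the form of the
joins of level 15 is `jfb14`, the pendants are `Ctx.pen_three14`
-/

namespace Pool.Agent.GaussPoset.Np

set_option linter.unusedSectionVars false

open Finset Wd Cl

universe u

variable {P : Type u} [Fintype P] [PartialOrder P] [DecidableEq P] {r : ℕ}
  {lo hi : Tops P → ℕ → ℕ} {e : Tops P → ℕ → ℕ → P}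

/-- **`j = 14`: every join of level `15` is a join of a fold end and an end `(5, 25, 0)`** -/
theorem jfb14 (K : Sm.Ctx P r 14 lo hi e) (hr : 15 ≤ r) : Tv.JFB P := by
  intro z hl hz
  obtain ⟨x, x', h⟩ := K.cross hz hl
  have hPD := Sm.noPD14 K
  have key : ∀ {x x' : P}, Sm.Cg z x x' → Sm.Fold 14 x →
      W4.FJn 14 z x x' ∧ Sm.Dt 14 x' (5, 25, 0) := by
    intro x x' h hf
    obtain ⟨-, V, -, -, hL⟩ := Sm.phk14 K hr ⟨z, h.jn⟩
    have hF : W4.FJn 14 z x x' := ⟨h, hl, hf⟩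
    rcases hL z x x' hF with h1 | ⟨s, hs, h1⟩
    · exact (hPD z x x' h hl (Sm.fold_pd14 hf) (Sm.fold_pd14 h1)).elim
    · unfold Sm.EG14 at hs
      simp only [List.mem_cons, List.not_mem_nil, or_false] at hs
      rcases hs with rfl | rfl | rfl | rfl
      · exact (hPD z x x' h hl (Sm.fold_pd14 hf) h1.2.2).elim
      · exact (hPD z x x' h hl (Sm.fold_pd14 hf) h1.2.2).elim
      · exact ⟨hF, h1⟩
      · exact (hPD z x x' h hl (Sm.fold_pd14 hf) h1.2.2).elim
  rcases Sm.foldj14' K hr hPD h hl with h1 | h1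
  · exact ⟨x, x', key h h1⟩
  · exact ⟨x', x, key h.symm h1⟩

/-- **Step B**, the three patterns of `La7` at `j = 14` -/
theorem la7_pat14 (K : Sm.Ctx P r 14 lo hi e) (hr : 15 ≤ r) {t : Tops P}
    (D : WordD 14 7 wa7 (lo t) (hi t)) : Pat (t : P) (e t) :=
  la7_pat K hr (jfb14 K hr) (fun t _ ha ha' => K.pen_three14 hr t ha ha') D

/-- **Step B**, the elements of level 15 below the elements `1, …, 4` of the row of `La7` -/
theorem la7_JAB14 (K : Sm.Ctx P r 14 lo hi e) (hr : 15 ≤ r) {t : Tops P}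
    (D : WordD 14 7 wa7 (lo t) (hi t)) :
    ∃ A : Finset P, (∀ x, x ∈ A ↔ ∃ k, 4 ≤ k ∧ k ≤ 7 ∧ x ⋖ e t 14 k) ∧
      ((∃ c, W7.JA (e t) A c) ∨ ∃ c c', W7.JB (e t) A c c') :=
  la7_JAB K hr (jfb14 K hr) (fun t _ ha ha' => K.pen_three14 hr t ha ha') D

end Pool.Agent.GaussPoset.Np
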