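import Pool.Agent.W_448jb_h67.NpG
import Pool.Agent.W_448jb_h67.NpF2

/-!
The near patterns of `La7` at `j = 14` (MP_448cb3_co, step B), the form for the window 7
-/

namespace Pool.Agent.GaussPoset.Np

set_option linter.unusedSectionVars false

open Finset Wd Cl

universe u

variable {P : Type u} [Fintype P] [PartialOrder P] [DecidableEq P] {r : ℕ}
  {lo hi : Tops P → ℕ → ℕ} {e : Tops P → ℕ → ℕ → P}

/-- **the elements of level 15 of the components `La7` at `j = 14`** -/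
theorem hpat14 (K : Sm.Ctx P r 14 lo hi e) (hr : 15 ≤ r) {t : Tops P}
    (D : WordD 14 7 wa7 (lo t) (hi t)) :
    ∃ A : Finset P, ((∃ c, W7.JA (e t) A c) ∨ ∃ c c', W7.JB (e t) A c c') ∧
      (∀ x ∈ A, lev x = 15) ∧ ∀ z, lev z = 15 → (∀ y, z ⋖ y → y ≤ (t : P)) →
        z ∈ A ∨ Sg.Mk (e t) z 33554432 := by
  obtain ⟨A, mA, h⟩ := la7_JAB14 K hr D
  exact ⟨A, h, la7_full K D mA⟩

end Pool.Agent.GaussPoset.Np
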